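import Pool.Agent.H341.FS.Stm5
import Pool.Agent.H341.FS.Frei
import Pool.Agent.H341.FS.FS_PER

set_option autoImplicit false

/-!
# FS-18, part 1 (helper597): exponents of roots are bounded
-/

namespace Pool.Agent.H597.FS

open Monoid Function Pool.Agent.H341.FS Pool.Agent.H341.FS.CYC

universe u

section len

variable {G : Bool → Type u} [∀ s, Group (G s)]

open scoped Classical in
theorem rcons_le {s : Bool} (p : CoprodI.Word.Pair G s) :
    (CoprodI.Word.rcons p).toList.length ≤ p.tail.toList.length + 1 := by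
  unfold CoprodI.Word.rcons
  split_ifs with h
  · omega
  · simp [CoprodI.Word.cons]

open scoped Classical in
theorem rcons_ge {s : Bool} (p : CoprodI.Word.Pair G s) :
    p.tail.toList.length ≤ (CoprodI.Word.rcons p).toList.length := by
  unfold CoprodI.Word.rcons
  split_ifs with h
  · exact le_rfl
  · simp [CoprodI.Word.cons]

open scoped Classical in
theorem smul_le {s : Bool} (m : G s) (w : CoprodI.Word G) :
    ((CoprodI.of m : CoprodI G) • w).toList.length ≤ w.toList.length + 1 := by
  rw [CoprodI.Word.of_smul_def]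
  refine (rcons_le _).trans ?_
  have h2 : CoprodI.Word.rcons (CoprodI.Word.equivPair s w) = w := by
    rw [← CoprodI.Word.equivPair_symm]
    exact Equiv.symm_apply_apply _ _
  have h3 := rcons_ge (CoprodI.Word.equivPair s w)
  rw [h2] at h3
  exact Nat.add_le_add_right h3 1

open scoped Classical in
theorem list_le (L : List (Σ s, G s)) :
    ((L.map vl).prod • (CoprodI.Word.empty : CoprodI.Word G)).toList.length ≤ L.length := by
  induction L with
  | nil => simp [CoprodI.Word.empty]
  | cons a l ih =>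
    rw [List.map_cons, List.prod_cons, mul_smul, List.length_cons]
    exact (smul_le a.2 _).trans (Nat.add_le_add_right ih 1)

theorem word_le (w : CoprodI.Word G) (L : List (Σ s, G s)) (h : w.prod = (L.map vl).prod) :
    w.toList.length ≤ L.length := by
  classical
  have h1 : w.prod • (CoprodI.Word.empty : CoprodI.Word G) = w :=
    CoprodI.Word.equiv.apply_symm_apply w
  have h2 := list_le L
  rw [← h, h1] at h2
  exact h2

theorem alt_word : ∀ (n : ℕ) (a : ℕ → G false) (b : ℕ → G true), (∀ i, a i ≠ 1) →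
    (∀ i, b i ≠ 1) → ∃ w : CoprodI.Word G,
      w.prod = pp (fun j => CoprodI.of (a j) * CoprodI.of (b j)) n ∧ w.toList.length = 2 * n ∧
      w.fstIdx ≠ some true := by
  intro n
  induction n with
  | zero =>
    intro a b _ _
    exact ⟨CoprodI.Word.empty, by simp [pp], by simp [CoprodI.Word.empty],
      by simp [CoprodI.Word.fstIdx, CoprodI.Word.empty]⟩
  | succ n ih =>
    intro a b ha hb
    obtain ⟨w, h1, h2, h3⟩ := ih (fun j => a (1 + j)) (fun j => b (1 + j)) (fun i => ha _)
      (fun i => hb _)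
    have h4 : (CoprodI.Word.cons (b 0) w h3 (hb 0)).fstIdx ≠ some false := by
      rw [CoprodI.Word.fstIdx_cons]
      simp
    refine ⟨CoprodI.Word.cons (a 0) (CoprodI.Word.cons (b 0) w h3 (hb 0)) h4 (ha 0), ?_, ?_, ?_⟩
    · rw [CoprodI.Word.prod_cons, CoprodI.Word.prod_cons, h1, add_comm n 1, pp_add]
      simp [pp, mul_assoc]
    · simp [CoprodI.Word.cons, h2]
      ring
    · rw [CoprodI.Word.fstIdx_cons]
      simp

theorem pow_word {k : ℕ} [NeZero k] (a : ZMod k → G false) (b : ZMod k → G true)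
    (ha : ∀ i, a i ≠ 1) (hb : ∀ i, b i ≠ 1) (N : ℕ) : ∃ w : CoprodI.Word G,
      w.prod = (W a b) ^ N ∧ w.toList.length = 2 * (k * N) := by
  obtain ⟨w, h1, h2, -⟩ := alt_word (k * N) (fun j : ℕ => a (j : ZMod k))
    (fun j : ℕ => b (j : ZMod k)) (fun i => ha _) (fun i => hb _)
  refine ⟨w, ?_, h2⟩
  rw [h1]
  refine pp_periodic _ k ?_ N
  intro j
  simp

/-- exponents of roots are bounded -/
theorem root_bound (x : CoprodI G)
    (hx : ¬ ∃ (s : Bool) (g : G s) (c : CoprodI G), x = c * CoprodI.of g * c⁻¹) :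
    ∃ K : ℕ, ∀ (s : CoprodI G) (j : ℕ), s ^ j = x → j ≤ K := by
  rcases s_cyc G x with h | ⟨k, _, a, b, c, ha, hb, hxc⟩
  · exact absurd h hx
  refine ⟨k, fun s j hs => ?_⟩
  rcases s_cyc G s with ⟨t, g, d, h⟩ | ⟨k', _, a', b', c', ha', hb', hsc⟩
  · exfalso
    apply hx
    refine ⟨t, g ^ j, d, ?_⟩
    rw [← hs, h, conj_pow, map_pow]
  have hk' : 0 < k' := Nat.pos_of_ne_zero (NeZero.ne k')
  obtain ⟨Ld, hLd⟩ := exists_list (c'⁻¹ * c)
  obtain ⟨Le, hLe⟩ := exists_list (c⁻¹ * c')
  have key : ∀ N : ℕ, 2 * (k' * (j * N)) ≤ Ld.length + 2 * (k * N) + Le.length := by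
    intro N
    obtain ⟨w, hw1, hw2⟩ := pow_word a b ha hb N
    obtain ⟨w', hw1', hw2'⟩ := pow_word a' b' ha' hb' (j * N)
    rw [← hw2, ← hw2', ← List.length_append, ← List.length_append]
    apply word_le
    rw [List.map_append, List.prod_append, List.map_append, List.prod_append, hLd, hLe]
    have h1 : (w.toList.map vl).prod = (W a b) ^ N := hw1
    rw [h1, hw1', pow_mul]
    have h2 : (W a' b') ^ j = c'⁻¹ * x * c' := by
      rw [← hs, hsc, conj_pow]
      group
    rw [h2, hxc]
    have h3 : c'⁻¹ * (c * W a b * c⁻¹) * c' = (c'⁻¹ * c) * W a b * (c'⁻¹ * c)⁻¹ := by group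
    rw [h3, conj_pow]
    group
  have h1 : k' * j ≤ k := by
    by_contra hlt
    push Not at hlt
    have h2 := key (Ld.length + Le.length + 1)
    have h3 : (k + 1) * (Ld.length + Le.length + 1) ≤ k' * j * (Ld.length + Le.length + 1) :=
      Nat.mul_le_mul_right _ hlt
    nlinarith
  calc j = 1 * j := (one_mul j).symm
    _ ≤ k' * j := Nat.mul_le_mul_right j hk'
    _ ≤ k := h1

end len

section coprod

variable {A B : Type u} [Group A] [Group B]

open Pool.Agent.H341.FS.XF in
theorem root_bound' (r : Coprod A B) (h1 : ∀ (g : Coprod A B) (a : A), r ≠ g * Coprod.inl a * g⁻¹)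
    (h2 : ∀ (g : Coprod A B) (b : B), r ≠ g * Coprod.inr b * g⁻¹) :
    ∃ K : ℕ, ∀ (s : Coprod A B) (j : ℕ), s ^ j = r → j ≤ K := by
  obtain ⟨K, hK⟩ := root_bound (toI A B r) (by
    rintro ⟨s, g, c, h⟩
    have h3 : r = ofI A B (c * CoprodI.of g * c⁻¹) := by rw [← h, ofI_toI]
    cases s
    · apply h1 (ofI A B c) g
      rw [h3, map_mul, map_mul, map_inv]
      congr 2
    · apply h2 (ofI A B c) g
      rw [h3, map_mul, map_mul, map_inv]
      congr 2)
  refine ⟨K, fun s j hs => hK (toI A B s) j ?_⟩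
  rw [← map_pow, hs]

/-- a relator with torsion-free quotient is not a proper power -/
theorem not_power (hORD : S_ORD.{u}) (hA : LO A) (hB : LO B) (r : Coprod A B)
    (h1 : ∀ (g : Coprod A B) (a : A), r ≠ g * Coprod.inl a * g⁻¹)
    (h2 : ∀ (g : Coprod A B) (b : B), r ≠ g * Coprod.inr b * g⁻¹)
    (htf : ∀ (s : Coprod A B) (n : ℕ), 0 < n → s ^ n ∈ Subgroup.normalClosure ({r} : Set (Coprod A B)) →
      s ∈ Subgroup.normalClosure ({r} : Set (Coprod A B))) :
    ∀ (s : Coprod A B) (n : ℕ), 2 ≤ n → s ^ n ≠ r := by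
  classical
  obtain ⟨K, hK⟩ := root_bound' r h1 h2
  set n₀ := Nat.findGreatest (fun n => ∃ s : Coprod A B, s ^ n = r) K with hn₀
  have hP1 : ∃ s : Coprod A B, s ^ 1 = r := ⟨r, pow_one r⟩
  have hK1 : 1 ≤ K := by
    obtain ⟨s, hs⟩ := hP1
    exact hK s 1 hs
  have hn1 : 1 ≤ n₀ := Nat.le_findGreatest (P := fun n => ∃ s : Coprod A B, s ^ n = r) hK1 hP1
  obtain ⟨v, hv⟩ : ∃ s : Coprod A B, s ^ n₀ = r :=
    Nat.findGreatest_spec (P := fun n => ∃ s : Coprod A B, s ^ n = r) hK1 hP1
  have hmax : ∀ (s : Coprod A B) (n : ℕ), s ^ n = r → n ≤ n₀ := fun s n hs =>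
    Nat.le_findGreatest (P := fun n => ∃ s : Coprod A B, s ^ n = r) (hK s n hs) ⟨s, hs⟩
  have hv1 : ∀ (g : Coprod A B) (a : A), v ≠ g * Coprod.inl a * g⁻¹ := by
    intro g a h
    apply h1 g (a ^ n₀)
    rw [← hv, h, conj_pow, map_pow]
  have hv2 : ∀ (g : Coprod A B) (b : B), v ≠ g * Coprod.inr b * g⁻¹ := by
    intro g b h
    apply h2 g (b ^ n₀)
    rw [← hv, h, conj_pow, map_pow]
  have hv3 : ∀ (s : Coprod A B) (n : ℕ), 2 ≤ n → s ^ n ≠ v := by
    intro s n hn h
    have h3 := hmax s (n * n₀) (by rw [pow_mul, h, hv])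
    nlinarith
  have hdiv := hORD A B hA hB v hv1 hv2 hv3 n₀ 1 (by
    rw [zpow_one, zpow_natCast, hv]
    apply htf v n₀ (by omega)
    rw [hv]
    exact Subgroup.subset_normalClosure (Set.mem_singleton _))
  have hn2 : n₀ = 1 := by
    have := Int.eq_one_of_dvd_one (by omega) hdiv
    exact_mod_cast this
  intro s n hn hs
  have := hmax s n hs
  omega

end coprod

end Pool.Agent.H597.FS



/-!
# FS-18, part 2 (helper597): the wreath product `(Q → ℤ) ⋊ Q`, and the case of a relator conjugate
into the infinite cyclic factor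
-/

namespace Pool.Agent.H597.FS

open Monoid Function Pool.Agent.H341.FS Multiplicative

section wr

variable (Q : Type) [Group Q]

/-- the functions on `Q` -/
abbrev Fn : Type := Multiplicative (Q → ℤ)

/-- the action of `Q` on the functions -/
def actQ : Q →* MulAut (Fn Q) where
  toFun s :=
    { toFun := fun f => ofAdd fun g => toAdd f (g * s)
      invFun := fun f => ofAdd fun g => toAdd f (g * s⁻¹)
      left_inv := by
        intro f
        apply toAdd.injective
        funext g
        simp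
      right_inv := by
        intro f
        apply toAdd.injective
        funext g
        simp
      map_mul' := by
        intro f f'
        rfl }
  map_one' := by
    apply MulEquiv.ext
    intro f
    apply toAdd.injective
    funext g
    show toAdd f (g * 1) = toAdd f g
    rw [mul_one]
  map_mul' s t := by
    apply MulEquiv.ext
    intro f
    apply toAdd.injective
    funext g
    show toAdd f (g * (s * t)) = toAdd f (g * s * t)
    rw [mul_assoc]

/-- the wreath product -/
abbrev Wr : Type := Fn Q ⋊[actQ Q] Q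

variable {Q}

/-- value of the function component -/
def vv (g : Q) (x : Wr Q) : ℤ := toAdd x.left g

theorem vv_one (g : Q) : vv g (1 : Wr Q) = 0 := rfl

theorem vv_mul (g : Q) (x y : Wr Q) : vv g (x * y) = vv g x + vv (g * x.right) y := rfl

theorem wr_comm {x y : Wr Q} (hx : x.right = 1) (hy : y.right = 1) : x * y = y * x := by
  apply SemidirectProduct.ext
  · rw [SemidirectProduct.mul_left, SemidirectProduct.mul_left, hx, hy, map_one]
    exact mul_comm _ _
  · rw [SemidirectProduct.mul_right, SemidirectProduct.mul_right, hx, hy]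

theorem vv_inv (g : Q) (x : Wr Q) : vv g x⁻¹ = - vv (g * (x.right)⁻¹) x := by
  have h := vv_mul g x⁻¹ x
  rw [inv_mul_cancel, vv_one, SemidirectProduct.inv_right] at h
  omega

theorem vv_conj (g : Q) (x y : Wr Q) (hy : y.right = 1) :
    vv g (x * y * x⁻¹) = vv (g * x.right) y ∧ (x * y * x⁻¹).right = 1 := by
  constructor
  · rw [vv_mul, vv_mul, SemidirectProduct.mul_right, hy, mul_one, vv_inv]
    simp
  · rw [SemidirectProduct.mul_right, SemidirectProduct.mul_right, SemidirectProduct.inv_right, hy]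
    group

theorem right_zpow (x : Wr Q) (hx : x.right = 1) (e : ℤ) : (x ^ e).right = 1 := by
  have h : SemidirectProduct.rightHom (x ^ e) = (SemidirectProduct.rightHom x) ^ e := map_zpow _ _ _
  have h2 : SemidirectProduct.rightHom x = 1 := hx
  rw [h2, one_zpow] at h
  exact h

theorem vv_zpow (g : Q) (x : Wr Q) (hx : x.right = 1) (e : ℤ) : vv g (x ^ e) = e * vv g x := by
  induction e using Int.induction_on with
  | zero => simp [vv_one]
  | succ i ih =>
    rw [zpow_add_one, vv_mul, ih, right_zpow x hx, mul_one]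
    ring
  | pred i ih =>
    rw [zpow_sub_one, vv_mul, ih, right_zpow x hx, mul_one, vv_inv, hx, inv_one, mul_one]
    ring

/-- commutators are killed -/
theorem ker_comm {F : Type} [Group F] (Ψ : F →* Wr Q) (N : Subgroup F)
    (hN : ∀ x ∈ N, (Ψ x).right = 1) : ∀ x ∈ ⁅N, N⁆, Ψ x = 1 := by
  have h : ⁅N, N⁆ ≤ Ψ.ker := by
    rw [Subgroup.commutator_le]
    intro x hx y hy
    rw [MonoidHom.mem_ker, commutatorElement_def, map_mul, map_mul, map_mul, map_inv, map_inv,
      wr_comm (hN x hx) (hN y hy)]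
    group
  exact fun x hx => h hx

/-- evaluation of a product of powers of conjugates -/
theorem eval_list {F T : Type} [Group F] (Ψ : F →* Wr Q) (c : T → F) (y : T → F) (e : T → ℤ)
    (hy : ∀ t, (Ψ (y t)).right = 1) (l : List T) (g : Q) :
    vv g (Ψ (l.map (fun t => (c t * y t * (c t)⁻¹) ^ e t)).prod) =
      (l.map (fun t => e t * vv (g * (Ψ (c t)).right) (Ψ (y t)))).sum ∧
    (Ψ (l.map (fun t => (c t * y t * (c t)⁻¹) ^ e t)).prod).right = 1 := by
  induction l with
  | nil => simp [vv_one]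
  | cons a l ih =>
    have h1 : (Ψ ((c a * y a * (c a)⁻¹) ^ e a)) = (Ψ (c a) * Ψ (y a) * (Ψ (c a))⁻¹) ^ e a := by
      rw [map_zpow, map_mul, map_mul, map_inv]
    have h2 := vv_conj g (Ψ (c a)) (Ψ (y a)) (hy a)
    constructor
    · rw [List.map_cons, List.prod_cons, map_mul, vv_mul, h1, right_zpow _ h2.2, mul_one,
        vv_zpow _ _ h2.2, h2.1, ih.1, List.map_cons, List.sum_cons]
    · rw [List.map_cons, List.prod_cons, map_mul, SemidirectProduct.mul_right, h1,
        right_zpow _ h2.2, ih.2, one_mul]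

end wr

section cyc

variable {A : Type} [Group A]

/-- the infinite cyclic group -/
abbrev ZZ : Type := Multiplicative ℤ

/-- the homomorphism `A * ℤ → (A → ℤ) ⋊ A` -/
noncomputable def toWr (A : Type) [Group A] [DecidableEq A] : Coprod A ZZ →* Wr A :=
  Coprod.lift SemidirectProduct.inr
    (zpowersHom (Wr A) (SemidirectProduct.inl (ofAdd (fun g : A => if g = 1 then (1 : ℤ) else 0))))

theorem toWr_right [DecidableEq A] (x : Coprod A ZZ) : (toWr A x).right = Coprod.fst x := by
  have h : (SemidirectProduct.rightHom : Wr A →* A).comp (toWr A) = Coprod.fst := by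
    apply Coprod.hom_ext
    · ext a
      simp [toWr]
    · ext
      simp [toWr, zpowersHom_apply]
  exact DFunLike.congr_fun h x

theorem toWr_inr [DecidableEq A] (z : ZZ) (g : A) :
    vv g (toWr A (Coprod.inr z)) = toAdd z * (if g = 1 then 1 else 0) := by
  unfold toWr
  rw [Coprod.lift_apply_inr, zpowersHom_apply, vv_zpow]
  · rfl
  · rfl

/-- everything for a relator which is conjugate into the infinite cyclic factor -/
theorem case1 (w : Coprod A ZZ) (g₀ : Coprod A ZZ) (z : ZZ) (hw : w = g₀ * Coprod.inr z * g₀⁻¹)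
    (hz : z ≠ 1)
    (htf : ∀ (s : Coprod A ZZ) (n : ℕ), 0 < n → s ^ n ∈ Subgroup.normalClosure ({w} : Set (Coprod A ZZ)) →
      s ∈ Subgroup.normalClosure ({w} : Set (Coprod A ZZ))) :
    (∀ a : A, Coprod.inl a ∈ Subgroup.normalClosure ({w} : Set (Coprod A ZZ)) → a = 1) ∧ Asph w := by
  classical
  set N := Subgroup.normalClosure ({w} : Set (Coprod A ZZ)) with hN
  have hwN : w ∈ N := Subgroup.subset_normalClosure (Set.mem_singleton _)
  have hρN : ∀ x ∈ N, Coprod.fst x = 1 := by
    have h : N ≤ (Coprod.fst : Coprod A ZZ →* A).ker := by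
      apply Subgroup.normalClosure_le_normal
      intro x hx
      rw [Set.mem_singleton_iff] at hx
      show Coprod.fst x = 1
      rw [hx, hw]
      simp
    exact fun x hx => h hx
  have hzN : Coprod.inr z ∈ N := by
    have h1 : g₀⁻¹ * w * g₀⁻¹⁻¹ ∈ N := Subgroup.Normal.conj_mem inferInstance w hwN g₀⁻¹
    have h2 : g₀⁻¹ * w * g₀⁻¹⁻¹ = Coprod.inr z := by rw [hw]; group
    rwa [h2] at h1
  have he : toAdd z ≠ 0 := fun h => hz (toAdd.injective h)
  have hpow : (Coprod.inr (ofAdd (1 : ℤ)) : Coprod A ZZ) ^ (toAdd z) = Coprod.inr z := by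
    rw [← map_zpow]
    congr 1
    apply toAdd.injective
    simp
  have h1N : (Coprod.inr (ofAdd (1 : ℤ)) : Coprod A ZZ) ∈ N := by
    apply htf _ (toAdd z).natAbs (Int.natAbs_pos.2 he)
    rcases Int.natAbs_eq (toAdd z) with h | h
    · rw [← zpow_natCast, ← h, hpow]
      exact hzN
    · have h3 : (((toAdd z).natAbs : ℕ) : ℤ) = - toAdd z := by omega
      rw [← zpow_natCast, h3, zpow_neg, hpow]
      exact N.inv_mem hzN
  have hallN : ∀ b : ZZ, (Coprod.inr b : Coprod A ZZ) ∈ N := by
    intro b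
    have h3 : (Coprod.inr b : Coprod A ZZ) = (Coprod.inr (ofAdd (1 : ℤ))) ^ (toAdd b) := by
      rw [← map_zpow]
      congr 1
      apply toAdd.injective
      simp
    rw [h3]
    exact N.zpow_mem h1N _
  have hker : ∀ x : Coprod A ZZ, Coprod.fst x = 1 → x ∈ N := by
    intro x hx
    have h : (QuotientGroup.mk' N) = ((QuotientGroup.mk' N).comp Coprod.inl).comp Coprod.fst := by
      apply Coprod.hom_ext
      · ext a
        rfl
      · ext
        simp only [MonoidHom.comp_apply, Coprod.fst_apply_inr, map_one]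
        exact (QuotientGroup.eq_one_iff _).2 (hallN _)
    have h2 := DFunLike.congr_fun h x
    simp only [MonoidHom.comp_apply, hx, map_one] at h2
    exact (QuotientGroup.eq_one_iff _).1 h2
  refine ⟨fun a ha => by simpa using hρN _ ha, ?_⟩
  intro l hl g f hf1 hf0
  have h1 := ker_comm (toWr A) N (fun x hx => by rw [toWr_right, hρN x hx]) _ hl
  have h2 := eval_list (toWr A) (fun t : Coprod A ZZ × ℤ => t.1 * g₀) (fun _ => Coprod.inr z)
    (fun t => t.2) (fun t => by rw [toWr_right]; simp) l (Coprod.fst (g * g₀))⁻¹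
  have h3 : (l.map (fun t : Coprod A ZZ × ℤ => (t.1 * g₀ * Coprod.inr z * (t.1 * g₀)⁻¹) ^ t.2)) =
      l.map (fun t : Coprod A ZZ × ℤ => (t.1 * w * t.1⁻¹) ^ t.2) := by
    apply List.map_congr_left
    intro t _
    rw [hw]
    congr 1
    group
  rw [h3, h1, vv_one] at h2
  have h4 : (l.map (fun t : Coprod A ZZ × ℤ =>
      t.2 * vv ((Coprod.fst (g * g₀))⁻¹ * (toWr A (t.1 * g₀)).right) (toWr A (Coprod.inr z)))) =
      l.map (fun t : Coprod A ZZ × ℤ => toAdd z * (f t.1 * t.2)) := by
    apply List.map_congr_left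
    intro t _
    rw [toWr_inr, toWr_right]
    by_cases h : g⁻¹ * t.1 ∈ N
    · rw [hf1 _ h]
      have h5 := hρN _ h
      rw [map_mul, map_inv] at h5
      have h6 : Coprod.fst t.1 = Coprod.fst g := by
        rw [inv_mul_eq_one] at h5
        exact h5.symm
      rw [if_pos (by rw [map_mul, map_mul, h6]; group)]
      ring
    · rw [hf0 _ h]
      rw [if_neg]
      · ring
      · intro h5
        apply h
        apply hker
        rw [map_mul, map_inv]
        rw [inv_mul_eq_one, map_mul, map_mul] at h5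
        rw [inv_mul_eq_one]
        exact mul_right_cancel h5
  rw [h4, List.sum_map_mul_left] at h2
  rcases mul_eq_zero.1 h2.1.symm with h5 | h5
  · exact absurd h5 he
  · exact h5

end cyc

end Pool.Agent.H597.FS



/-!
# FS-18, part 3 (helper597): the class sum homomorphism and the cocycle
-/

namespace Pool.Agent.H597.FS

open Monoid Function Pool.Agent.H341.FS Multiplicative

open scoped Classical

section cl

variable {X ι : Type} (rs : ι → FreeGroup X) (i₀ : ι)

/-- graph of the class sum homomorphism -/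
noncomputable def DD : Subgroup (FreeGroup X × ZZ) :=
  Subgroup.closure {p | ∃ (u : FreeGroup X) (j : ι), p = (u * rs j * u⁻¹,
    ofAdd (if j = i₀ ∧ u ∈ Subgroup.normalClosure (Set.range rs) then (1 : ℤ) else 0))}

theorem DD_gen (u : FreeGroup X) (j : ι) : (u * rs j * u⁻¹,
    ofAdd (if j = i₀ ∧ u ∈ Subgroup.normalClosure (Set.range rs) then (1 : ℤ) else 0)) ∈ DD rs i₀ :=
  Subgroup.subset_closure ⟨u, j, rfl⟩

theorem DD_list (p : FreeGroup X × ZZ) (hp : p ∈ DD rs i₀) :
    ∃ l : List (FreeGroup X × ι × ℤ),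
      p.1 = (l.map (fun t : FreeGroup X × ι × ℤ => (t.1 * rs t.2.1 * t.1⁻¹) ^ t.2.2)).prod ∧
      toAdd p.2 = (l.map (fun t : FreeGroup X × ι × ℤ =>
        if t.2.1 = i₀ ∧ t.1 ∈ Subgroup.normalClosure (Set.range rs) then t.2.2 else 0)).sum := by
  induction hp using Subgroup.closure_induction with
  | mem p hp =>
    obtain ⟨u, j, rfl⟩ := hp
    exact ⟨[(u, j, 1)], by simp, by simp⟩
  | one => exact ⟨[], by simp, by simp⟩
  | mul p p' _ _ h h' =>
    obtain ⟨l, h1, h2⟩ := h
    obtain ⟨l', h1', h2'⟩ := h'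
    refine ⟨l ++ l', ?_, ?_⟩
    · rw [List.map_append, List.prod_append, ← h1, ← h1', Prod.fst_mul]
    · rw [List.map_append, List.sum_append, ← h2, ← h2', Prod.snd_mul, toAdd_mul]
  | inv p _ h =>
    obtain ⟨l, h1, h2⟩ := h
    refine ⟨(l.map (fun t => (t.1, t.2.1, -t.2.2))).reverse, ?_, ?_⟩
    · rw [Prod.fst_inv, h1, List.prod_inv_reverse, List.map_reverse, List.map_map, List.map_map]
      congr 2
      apply List.map_congr_left
      intro t _
      simp [mul_assoc]
    · rw [Prod.snd_inv, toAdd_inv, h2, List.map_reverse, List.sum_reverse, List.map_map]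
      clear h1 h2
      induction l with
      | nil => simp
      | cons t l ih =>
        rw [List.map_cons, List.sum_cons, List.map_cons, List.sum_cons, neg_add, ih]
        congr 1
        simp only [comp_apply]
        split_ifs <;> simp

theorem DD_one (hP : AsphP rs) (a : ZZ) (h : ((1 : FreeGroup X), a) ∈ DD rs i₀) : a = 1 := by
  obtain ⟨l, h1, h2⟩ := DD_list rs i₀ _ h
  have h3 := hP l (by rw [← h1]; exact Subgroup.one_mem _) i₀ 1
  apply toAdd.injective
  rw [h2, toAdd_one]
  refine Eq.trans ?_ h3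
  congr 1
  apply List.map_congr_left
  intro t _
  simp only [inv_one, one_mul]

theorem DD_uniq (hP : AsphP rs) (x : FreeGroup X) (a b : ZZ) (h : (x, a) ∈ DD rs i₀)
    (h' : (x, b) ∈ DD rs i₀) : a = b := by
  have h1 := (DD rs i₀).mul_mem ((DD rs i₀).inv_mem h) h'
  have h2 : ((x, a)⁻¹ * (x, b) : FreeGroup X × ZZ) = (1, a⁻¹ * b) := by
    ext <;> simp
  rw [h2] at h1
  have h3 := DD_one rs i₀ hP _ h1
  rw [inv_mul_eq_one] at h3
  exact h3

theorem DD_ex (x : FreeGroup X) (hx : x ∈ Subgroup.normalClosure (Set.range rs)) :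
    ∃ a, (x, a) ∈ DD rs i₀ := by
  have h : Subgroup.normalClosure (Set.range rs) ≤
      (DD rs i₀).map (MonoidHom.fst (FreeGroup X) ZZ) := by
    rw [Subgroup.normalClosure, Subgroup.closure_le]
    intro y hy
    rw [Group.mem_conjugatesOfSet_iff] at hy
    obtain ⟨r, ⟨j, rfl⟩, hc⟩ := hy
    obtain ⟨u, hu⟩ := isConj_iff.1 hc
    exact ⟨_, DD_gen rs i₀ u j, hu⟩
  obtain ⟨p, hp, hpx⟩ := h hx
  refine ⟨p.2, ?_⟩
  have h2 : (x, p.2) = p := by
    ext
    · rw [← hpx]; rfl
    · rfl
  rw [h2]
  exact hp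

/-- the class sum -/
noncomputable def cl (x : FreeGroup X) : ℤ :=
  if h : ∃ a, (x, a) ∈ DD rs i₀ then toAdd h.choose else 0

variable {rs}

theorem cl_eq (hP : AsphP rs) {x : FreeGroup X} {a : ZZ} (h : (x, a) ∈ DD rs i₀) :
    cl rs i₀ x = toAdd a := by
  have h1 : ∃ a, (x, a) ∈ DD rs i₀ := ⟨a, h⟩
  unfold cl
  rw [dif_pos h1]
  congr 1
  exact DD_uniq rs i₀ hP x _ _ h1.choose_spec h

theorem cl_mul (hP : AsphP rs) {x y : FreeGroup X} (hx : x ∈ Subgroup.normalClosure (Set.range rs))
    (hy : y ∈ Subgroup.normalClosure (Set.range rs)) :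
    cl rs i₀ (x * y) = cl rs i₀ x + cl rs i₀ y := by
  obtain ⟨a, ha⟩ := DD_ex rs i₀ x hx
  obtain ⟨b, hb⟩ := DD_ex rs i₀ y hy
  rw [cl_eq i₀ hP ha, cl_eq i₀ hP hb, cl_eq i₀ hP ((DD rs i₀).mul_mem ha hb)]
  rfl

theorem cl_one (hP : AsphP rs) : cl rs i₀ 1 = 0 := by
  rw [cl_eq i₀ hP (DD rs i₀).one_mem]
  rfl

theorem cl_inv (hP : AsphP rs) {x : FreeGroup X} (hx : x ∈ Subgroup.normalClosure (Set.range rs)) :
    cl rs i₀ x⁻¹ = - cl rs i₀ x := by
  obtain ⟨a, ha⟩ := DD_ex rs i₀ x hx
  rw [cl_eq i₀ hP ha, cl_eq i₀ hP ((DD rs i₀).inv_mem ha)]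
  rfl

theorem cl_conj (hP : AsphP rs) (u : FreeGroup X) (j : ι) :
    cl rs i₀ (u * rs j * u⁻¹) =
      if j = i₀ ∧ u ∈ Subgroup.normalClosure (Set.range rs) then 1 else 0 := by
  rw [cl_eq i₀ hP (DD_gen rs i₀ u j)]
  rfl

end cl

theorem weighted {T κ : Type} (l : List T) (k : T → κ) (e : T → ℤ)
    (h : ∀ κ₀, (l.map (fun t => if k t = κ₀ then e t else 0)).sum = 0) (τ : κ → ℤ) :
    (l.map (fun t => e t * τ (k t))).sum = 0 := by
  have h1 : (l.map (fun t => Finsupp.single (k t) (e t))).sum = 0 := by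
    ext κ₀
    have h2 : ((l.map (fun t => Finsupp.single (k t) (e t))).sum) κ₀ =
        (l.map (fun t => if k t = κ₀ then e t else 0)).sum := by
      clear h
      induction l with
      | nil => simp
      | cons a l ih =>
        rw [List.map_cons, List.sum_cons, Finsupp.add_apply, ih, List.map_cons, List.sum_cons,
          Finsupp.single_apply]
    rw [h2, h]
    rfl
  have h3 := congrArg (Finsupp.linearCombination ℤ τ) h1
  rw [map_list_sum, map_zero, List.map_map] at h3
  rw [← h3]
  congr 1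
  apply List.map_congr_left
  intro t _
  simp

end Pool.Agent.H597.FS



/-!
# FS-18 (helper597): asphericity of one-relator extensions with left-orderable `H`
-/

namespace Pool.Agent.H597.FS

open Monoid Function Pool.Agent.H341.FS Multiplicative

open scoped Classical

section setup

variable {n m : ℕ} (rs : Fin m → FreeGroup (Fin n))

/-- the relation subgroup -/
abbrev RR : Subgroup (FreeGroup (Fin n)) := Subgroup.normalClosure (Set.range rs)

/-- the group `H` -/
abbrev HH : Type := FreeGroup (Fin n) ⧸ RR rs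

/-- the inclusion of free groups -/
abbrev io (n : ℕ) : FreeGroup (Fin n) →* FreeGroup (Option (Fin n)) := FreeGroup.map some

/-- the relation subgroup in the larger free group -/
abbrev MM : Subgroup (FreeGroup (Option (Fin n))) :=
  Subgroup.normalClosure (Set.range (fun i => FreeGroup.map some (rs i)))

/-- the projection onto `H * ⟨x⟩` -/
noncomputable def qq : FreeGroup (Option (Fin n)) →* Coprod (HH rs) ZZ :=
  FreeGroup.lift (fun o => Option.elim o (Coprod.inr (ofAdd (1 : ℤ)))
    (fun j => Coprod.inl (QuotientGroup.mk' (RR rs) (FreeGroup.of j))))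

theorem qq_map (w : FreeGroup (Fin n)) :
    qq rs (io n w) = Coprod.inl (QuotientGroup.mk' (RR rs) w) := by
  have h : (qq rs).comp (io n) = Coprod.inl.comp (QuotientGroup.mk' (RR rs)) := by
    apply FreeGroup.ext_hom
    intro j
    simp [qq]
  exact DFunLike.congr_fun h w

theorem qq_none : qq rs (FreeGroup.of none) = Coprod.inr (ofAdd (1 : ℤ)) := by
  simp [qq]

theorem qq_MM (x : FreeGroup (Option (Fin n))) (hx : x ∈ MM rs) : qq rs x = 1 := by
  have h : MM rs ≤ (qq rs).ker := by
    apply Subgroup.normalClosure_le_normal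
    rintro _ ⟨i, rfl⟩
    show qq rs (io n (rs i)) = 1
    rw [qq_map]
    have h2 : QuotientGroup.mk' (RR rs) (rs i) = 1 :=
      (QuotientGroup.eq_one_iff _).2 (Subgroup.subset_normalClosure ⟨i, rfl⟩)
    rw [h2, map_one]
  exact h hx

theorem lift_aux (x : FreeGroup (Fin n)) (hx : x ∈ RR rs) :
    ((QuotientGroup.mk' (MM rs)).comp (io n)) x = 1 := by
  have h : RR rs ≤ ((QuotientGroup.mk' (MM rs)).comp (io n)).ker := by
    apply Subgroup.normalClosure_le_normal
    rintro _ ⟨i, rfl⟩
    exact (QuotientGroup.eq_one_iff _).2 (Subgroup.subset_normalClosure ⟨i, rfl⟩)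
  exact h hx

/-- the inverse -/
noncomputable def pinv : Coprod (HH rs) ZZ →* FreeGroup (Option (Fin n)) ⧸ MM rs :=
  Coprod.lift (QuotientGroup.lift (RR rs) ((QuotientGroup.mk' (MM rs)).comp (io n)) (lift_aux rs))
    (zpowersHom _ (QuotientGroup.mk' (MM rs) (FreeGroup.of none)))

theorem pinv_qq (x : FreeGroup (Option (Fin n))) :
    pinv rs (qq rs x) = QuotientGroup.mk' (MM rs) x := by
  have h : (pinv rs).comp (qq rs) = QuotientGroup.mk' (MM rs) := by
    apply FreeGroup.ext_hom
    intro o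
    cases o with
    | none =>
      rw [MonoidHom.comp_apply, qq_none]
      unfold pinv
      rw [Coprod.lift_apply_inr]
      simp [zpowersHom_apply]
    | some j =>
      have h2 : (FreeGroup.of (some j) : FreeGroup (Option (Fin n))) = io n (FreeGroup.of j) := by
        simp
      rw [MonoidHom.comp_apply, h2, qq_map]
      unfold pinv
      rw [Coprod.lift_apply_inl]
      rfl
  exact DFunLike.congr_fun h x

theorem qq_ker (x : FreeGroup (Option (Fin n))) (hx : qq rs x = 1) : x ∈ MM rs := by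
  have h := pinv_qq rs x
  rw [hx, map_one] at h
  exact (QuotientGroup.eq_one_iff _).1 h.symm

theorem qq_surj : Surjective (qq rs) := by
  intro p
  have h : ∀ p : Coprod (HH rs) ZZ, p ∈ (qq rs).range := by
    intro p
    induction p using Coprod.induction_on with
    | inl a =>
      obtain ⟨w, rfl⟩ := QuotientGroup.mk'_surjective (RR rs) a
      exact ⟨io n w, qq_map rs w⟩
    | inr z =>
      refine ⟨(FreeGroup.of none) ^ (toAdd z), ?_⟩
      rw [map_zpow, qq_none, ← map_zpow]
      congr 1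
      apply toAdd.injective
      simp
    | mul x y hx hy => exact Subgroup.mul_mem _ hx hy
  exact h p

variable (r : FreeGroup (Option (Fin n)))

/-- the normal closure of all relators -/
abbrev NN : Subgroup (FreeGroup (Option (Fin n))) := Subgroup.normalClosure (Set.range (ext rs r))

theorem MM_le : MM rs ≤ NN rs r := by
  apply Subgroup.normalClosure_le_normal
  rintro _ ⟨i, rfl⟩
  exact Subgroup.subset_normalClosure ⟨some i, rfl⟩

theorem mem_NN (x : FreeGroup (Option (Fin n))) :
    x ∈ NN rs r ↔ qq rs x ∈ Subgroup.normalClosure ({qq rs r} : Set (Coprod (HH rs) ZZ)) := by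
  constructor
  · intro hx
    have h : NN rs r ≤ (Subgroup.normalClosure ({qq rs r} : Set (Coprod (HH rs) ZZ))).comap
        (qq rs) := by
      apply Subgroup.normalClosure_le_normal
      rintro _ ⟨o, rfl⟩
      cases o with
      | none => exact Subgroup.subset_normalClosure (Set.mem_singleton _)
      | some i =>
        show qq rs (io n (rs i)) ∈ Subgroup.normalClosure ({qq rs r} : Set (Coprod (HH rs) ZZ))
        rw [qq_MM rs _ (Subgroup.subset_normalClosure ⟨i, rfl⟩)]
        exact Subgroup.one_mem _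
    exact h hx
  · intro hx
    have hn : ((NN rs r).map (qq rs)).Normal :=
      Subgroup.Normal.map inferInstance _ (qq_surj rs)
    have h : Subgroup.normalClosure ({qq rs r} : Set (Coprod (HH rs) ZZ)) ≤
        (NN rs r).map (qq rs) := by
      apply Subgroup.normalClosure_le_normal
      intro y hy
      rw [Set.mem_singleton_iff] at hy
      rw [hy]
      exact ⟨r, Subgroup.subset_normalClosure ⟨none, rfl⟩, rfl⟩
    obtain ⟨y, hy, hyx⟩ := h hx
    have h2 : x * y⁻¹ ∈ MM rs := by
      apply qq_ker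
      rw [map_mul, map_inv, hyx, mul_inv_cancel]
    have h3 := (NN rs r).mul_mem (MM_le rs r h2) hy
    simpa using h3

end setup

section cocycle

variable {n m : ℕ} {rs : Fin m → FreeGroup (Fin n)} {r : FreeGroup (Option (Fin n))} (i₀ : Fin m)
  (g₁ : FreeGroup (Option (Fin n)))

/-- the orbit of the coset of `g₁` under the small free group -/
def Orb (rs : Fin m → FreeGroup (Fin n)) (r g₁ : FreeGroup (Option (Fin n)))
    (q : FreeGroup (Option (Fin n)) ⧸ NN rs r) : Prop :=
  ∃ s : FreeGroup (Fin n), q = QuotientGroup.mk' (NN rs r) (g₁ * io n s)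

/-- a representative -/
noncomputable def sg (rs : Fin m → FreeGroup (Fin n)) (r g₁ : FreeGroup (Option (Fin n)))
    (q : FreeGroup (Option (Fin n)) ⧸ NN rs r) : FreeGroup (Fin n) :=
  if h : Orb rs r g₁ q then h.choose else 1

theorem sg_spec {q : FreeGroup (Option (Fin n)) ⧸ NN rs r} (h : Orb rs r g₁ q) :
    q = QuotientGroup.mk' (NN rs r) (g₁ * io n (sg rs r g₁ q)) := by
  unfold sg
  rw [dif_pos h]
  exact h.choose_spec

/-- the values of the cocycle on the generators -/
noncomputable def th (rs : Fin m → FreeGroup (Fin n)) (r : FreeGroup (Option (Fin n))) (i₀ : Fin m)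
    (g₁ : FreeGroup (Option (Fin n))) :
    Option (Fin n) → (FreeGroup (Option (Fin n)) ⧸ NN rs r) → ℤ
  | none, _ => 0
  | some j, q => if Orb rs r g₁ q then
      cl rs i₀ (sg rs r g₁ q * FreeGroup.of j *
        (sg rs r g₁ (q * QuotientGroup.mk' (NN rs r) (io n (FreeGroup.of j))))⁻¹) else 0

/-- the cocycle -/
noncomputable def Ps (rs : Fin m → FreeGroup (Fin n)) (r : FreeGroup (Option (Fin n))) (i₀ : Fin m)
    (g₁ : FreeGroup (Option (Fin n))) :
    FreeGroup (Option (Fin n)) →* Wr (FreeGroup (Option (Fin n)) ⧸ NN rs r) :=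
  FreeGroup.lift (fun o => ⟨ofAdd (th rs r i₀ g₁ o), QuotientGroup.mk' (NN rs r) (FreeGroup.of o)⟩)

theorem Ps_right (x : FreeGroup (Option (Fin n))) :
    (Ps rs r i₀ g₁ x).right = QuotientGroup.mk' (NN rs r) x := by
  have h : (SemidirectProduct.rightHom).comp (Ps rs r i₀ g₁) = QuotientGroup.mk' (NN rs r) := by
    apply FreeGroup.ext_hom
    intro o
    simp [Ps]
  exact DFunLike.congr_fun h x

theorem Ps_of (j : Fin n) (q : FreeGroup (Option (Fin n)) ⧸ NN rs r) :
    vv q (Ps rs r i₀ g₁ (io n (FreeGroup.of j))) = th rs r i₀ g₁ (some j) q := by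
  have h : io n (FreeGroup.of j) = FreeGroup.of (some j) := by simp
  rw [h]
  unfold Ps
  rw [FreeGroup.lift_apply_of]
  rfl

theorem orb_mul {q : FreeGroup (Option (Fin n)) ⧸ NN rs r} (h : Orb rs r g₁ q)
    (f : FreeGroup (Fin n)) : Orb rs r g₁ (q * QuotientGroup.mk' (NN rs r) (io n f)) := by
  obtain ⟨s, rfl⟩ := h
  exact ⟨s * f, by rw [← map_mul, map_mul (io n), mul_assoc]⟩

theorem orb_mul_iff {q : FreeGroup (Option (Fin n)) ⧸ NN rs r}
    (f : FreeGroup (Fin n)) : Orb rs r g₁ (q * QuotientGroup.mk' (NN rs r) (io n f)) ↔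
      Orb rs r g₁ q := by
  constructor
  · intro h
    have h2 := orb_mul g₁ h f⁻¹
    rw [mul_assoc, ← map_mul, ← map_mul, mul_inv_cancel, map_one, map_one, mul_one] at h2
    exact h2
  · intro h
    exact orb_mul g₁ h f

theorem sg_mem (hemb : ∀ w : FreeGroup (Fin n), io n w ∈ NN rs r → w ∈ RR rs)
    {q : FreeGroup (Option (Fin n)) ⧸ NN rs r} (h : Orb rs r g₁ q) (f : FreeGroup (Fin n)) :
    sg rs r g₁ q * f * (sg rs r g₁ (q * QuotientGroup.mk' (NN rs r) (io n f)))⁻¹ ∈ RR rs := by
  apply hemb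
  have h1 := sg_spec g₁ h
  have h2 := sg_spec g₁ (orb_mul g₁ h f)
  rw [← QuotientGroup.eq_one_iff]
  change QuotientGroup.mk' (NN rs r) _ = 1
  rw [map_mul, map_mul, map_inv, map_mul, map_mul, map_inv, mul_inv_eq_one]
  have h3 : QuotientGroup.mk' (NN rs r) g₁ * (QuotientGroup.mk' (NN rs r) (io n (sg rs r g₁ q)) *
      QuotientGroup.mk' (NN rs r) (io n f)) = QuotientGroup.mk' (NN rs r) g₁ *
      QuotientGroup.mk' (NN rs r) (io n (sg rs r g₁ (q * QuotientGroup.mk' (NN rs r) (io n f)))) := by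
    rw [← mul_assoc, ← map_mul, ← h1]
    exact h2.trans (map_mul _ _ _)
  exact mul_left_cancel h3

theorem vv_orb (hP : AsphP rs) (hemb : ∀ w : FreeGroup (Fin n), io n w ∈ NN rs r → w ∈ RR rs)
    (f : FreeGroup (Fin n)) : ∀ q : FreeGroup (Option (Fin n)) ⧸ NN rs r, Orb rs r g₁ q →
      vv q (Ps rs r i₀ g₁ (io n f)) =
        cl rs i₀ (sg rs r g₁ q * f *
          (sg rs r g₁ (q * QuotientGroup.mk' (NN rs r) (io n f)))⁻¹) := by
  induction f using FreeGroup.induction_on with
  | C1 =>
    intro q _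
    rw [map_one, map_one, vv_one, map_one, mul_one, mul_one, mul_inv_cancel, cl_one i₀ hP]
  | of j =>
    intro q h
    have := Ps_of (rs := rs) (r := r) i₀ g₁ j q
    rw [this]
    exact if_pos h
  | inv_of j ih =>
    intro q h
    rw [map_inv, map_inv, vv_inv, Ps_right]
    have h1 : Orb rs r g₁ (q * (QuotientGroup.mk' (NN rs r) (io n (FreeGroup.of j)))⁻¹) := by
      have := orb_mul g₁ h (FreeGroup.of j)⁻¹
      rwa [map_inv, map_inv] at this
    rw [ih _ h1, ← cl_inv i₀ hP (sg_mem g₁ hemb h1 _)]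
    congr 1
    rw [inv_mul_cancel_right, map_inv]
    group
  | mul x y hx hy =>
    intro q h
    rw [map_mul, map_mul, vv_mul, Ps_right, hx q h, hy _ (orb_mul g₁ h x),
      ← cl_mul i₀ hP (sg_mem g₁ hemb h x) (sg_mem g₁ hemb (orb_mul g₁ h x) y), map_mul]
    congr 1
    rw [mul_assoc q]
    group

theorem vv_norb (f : FreeGroup (Fin n)) : ∀ q : FreeGroup (Option (Fin n)) ⧸ NN rs r,
    ¬ Orb rs r g₁ q → vv q (Ps rs r i₀ g₁ (io n f)) = 0 := by
  induction f using FreeGroup.induction_on with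
  | C1 =>
    intro q _
    rw [map_one, map_one, vv_one]
  | of j =>
    intro q h
    have := Ps_of (rs := rs) (r := r) i₀ g₁ j q
    rw [this]
    exact if_neg h
  | inv_of j ih =>
    intro q h
    rw [map_inv, map_inv, vv_inv, Ps_right]
    have h1 : ¬ Orb rs r g₁ (q * (QuotientGroup.mk' (NN rs r) (io n (FreeGroup.of j)))⁻¹) := by
      have := (orb_mul_iff g₁ (q := q) (FreeGroup.of j)⁻¹).not.2 h
      rwa [map_inv, map_inv] at this
    rw [ih _ h1, neg_zero]
  | mul x y hx hy =>
    intro q h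
    rw [map_mul, map_mul, vv_mul, Ps_right, hx q h, hy _ ((orb_mul_iff g₁ x).not.2 h), add_zero]

/-- the value of the cocycle on the relators of the small presentation -/
theorem vv_rel (hP : AsphP rs) (hemb : ∀ w : FreeGroup (Fin n), io n w ∈ NN rs r → w ∈ RR rs)
    (j : Fin m) (q : FreeGroup (Option (Fin n)) ⧸ NN rs r) :
    vv q (Ps rs r i₀ g₁ (io n (rs j))) =
      if j = i₀ ∧ q = QuotientGroup.mk' (NN rs r) g₁ then 1 else 0 := by
  have hrj : QuotientGroup.mk' (NN rs r) (io n (rs j)) = 1 :=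
    (QuotientGroup.eq_one_iff _).2 (Subgroup.subset_normalClosure ⟨some j, rfl⟩)
  by_cases h : Orb rs r g₁ q
  · rw [vv_orb i₀ g₁ hP hemb _ q h, hrj, mul_one, cl_conj i₀ hP]
    have h1 : sg rs r g₁ q ∈ Subgroup.normalClosure (Set.range rs) ↔
        q = QuotientGroup.mk' (NN rs r) g₁ := by
      have h2 := sg_spec g₁ h
      constructor
      · intro h3
        rw [h2, map_mul]
        have h4 : QuotientGroup.mk' (NN rs r) (io n (sg rs r g₁ q)) = 1 := by
          refine (QuotientGroup.eq_one_iff _).2 ?_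
          rw [mem_NN, qq_map]
          have h5 : QuotientGroup.mk' (RR rs) (sg rs r g₁ q) = 1 :=
            (QuotientGroup.eq_one_iff _).2 h3
          rw [h5, map_one]
          exact Subgroup.one_mem _
        rw [h4, mul_one]
      · intro h3
        apply hemb
        rw [← QuotientGroup.eq_one_iff]
        change QuotientGroup.mk' (NN rs r) _ = 1
        have h4 : QuotientGroup.mk' (NN rs r) g₁ * QuotientGroup.mk' (NN rs r)
            (io n (sg rs r g₁ q)) = QuotientGroup.mk' (NN rs r) g₁ * 1 := by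
          rw [← map_mul, ← h2, mul_one, h3]
        exact mul_left_cancel h4
    simp only [h1]
  · rw [vv_norb i₀ g₁ _ q h, if_neg]
    rintro ⟨-, h2⟩
    apply h
    exact ⟨1, by rw [h2, map_one, mul_one]⟩

end cocycle

section main

variable {n m : ℕ} {rs : Fin m → FreeGroup (Fin n)} {r : FreeGroup (Option (Fin n))}

/-- the class sums of the new relator vanish -/
theorem part_none (hA : Asph (qq rs r))
    (l : List (FreeGroup (Option (Fin n)) × Option (Fin m) × ℤ))
    (hl : (l.map (fun t : FreeGroup (Option (Fin n)) × Option (Fin m) × ℤ =>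
      (t.1 * ext rs r t.2.1 * t.1⁻¹) ^ t.2.2)).prod ∈ ⁅NN rs r, NN rs r⁆)
    (g : FreeGroup (Option (Fin n))) :
    (l.map (fun t : FreeGroup (Option (Fin n)) × Option (Fin m) × ℤ =>
        if t.2.1 = none ∧ g⁻¹ * t.1 ∈ NN rs r then t.2.2 else 0)).sum = 0 := by
  have h1 : qq rs (l.map (fun t : FreeGroup (Option (Fin n)) × Option (Fin m) × ℤ =>
      (t.1 * ext rs r t.2.1 * t.1⁻¹) ^ t.2.2)).prod ∈
      ⁅Subgroup.normalClosure ({qq rs r} : Set (Coprod (HH rs) ZZ)),
        Subgroup.normalClosure ({qq rs r} : Set (Coprod (HH rs) ZZ))⁆ := by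
    have h2 : (⁅NN rs r, NN rs r⁆).map (qq rs) ≤
        ⁅Subgroup.normalClosure ({qq rs r} : Set (Coprod (HH rs) ZZ)),
        Subgroup.normalClosure ({qq rs r} : Set (Coprod (HH rs) ZZ))⁆ := by
      rw [Subgroup.map_commutator]
      have h3 : (NN rs r).map (qq rs) ≤
          Subgroup.normalClosure ({qq rs r} : Set (Coprod (HH rs) ZZ)) := by
        rintro _ ⟨x, hx, rfl⟩
        exact (mem_NN rs r x).1 hx
      exact Subgroup.commutator_mono h3 h3
    exact h2 ⟨_, hl, rfl⟩
  have h2 := hA (l.map (fun t : FreeGroup (Option (Fin n)) × Option (Fin m) × ℤ =>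
    (qq rs t.1, if t.2.1 = none then t.2.2 else 0))) (by
      refine (congrArg (fun z => z ∈
        ⁅Subgroup.normalClosure ({qq rs r} : Set (Coprod (HH rs) ZZ)),
        Subgroup.normalClosure ({qq rs r} : Set (Coprod (HH rs) ZZ))⁆) ?_).mp h1
      rw [map_list_prod, List.map_map, List.map_map]
      congr 1
      apply List.map_congr_left
      rintro ⟨c, o, e⟩ _
      cases o with
      | none => simp [Pool.Agent.H341.FS.ext]
      | some i =>
        have h3 : qq rs (FreeGroup.map some (rs i)) = 1 :=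
          qq_MM rs _ (Subgroup.subset_normalClosure ⟨i, rfl⟩)
        simp [Pool.Agent.H341.FS.ext, h3])
    (qq rs g) (fun c => if (qq rs g)⁻¹ * c ∈
      Subgroup.normalClosure ({qq rs r} : Set (Coprod (HH rs) ZZ)) then 1 else 0)
    (fun c hc => if_pos hc) (fun c hc => if_neg hc)
  rw [List.map_map] at h2
  refine Eq.trans ?_ h2
  congr 1
  apply List.map_congr_left
  rintro ⟨c, o, e⟩ _
  simp only [comp_apply]
  have h3 : (qq rs g)⁻¹ * qq rs c ∈ Subgroup.normalClosure ({qq rs r} : Set (Coprod (HH rs) ZZ)) ↔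
      g⁻¹ * c ∈ NN rs r := by
    rw [mem_NN, map_mul, map_inv]
  simp only [h3]
  by_cases h4 : o = none <;> by_cases h5 : g⁻¹ * c ∈ NN rs r <;> simp [h4, h5]

/-- the relation module part -/
theorem core (hP : AsphP rs) (hemb : ∀ w : FreeGroup (Fin n), io n w ∈ NN rs r → w ∈ RR rs)
    (hA : Asph (qq rs r)) : AsphP (ext rs r) := by
  intro l hl i g
  have hnone := part_none hA l hl
  cases i with
  | none =>
    refine Eq.trans ?_ (hnone g)
    congr 1
    apply List.map_congr_left
    intro t _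
    by_cases h4 : t.2.1 = none <;> by_cases h5 : g⁻¹ * t.1 ∈ NN rs r <;> simp [h4, h5]
  | some i₀ =>
    have h1 := ker_comm (Ps rs r i₀ g) (NN rs r) (fun x hx => by
      rw [Ps_right]
      exact (QuotientGroup.eq_one_iff _).2 hx) _ hl
    have h2 := eval_list (Ps rs r i₀ g)
      (fun t : FreeGroup (Option (Fin n)) × Option (Fin m) × ℤ => t.1)
      (fun t => ext rs r t.2.1) (fun t => t.2.2) (fun t => by
        rw [Ps_right]
        exact (QuotientGroup.eq_one_iff _).2 (Subgroup.subset_normalClosure ⟨_, rfl⟩)) l 1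
    rw [h1, vv_one] at h2
    -- the part of the new relator
    have h3 := weighted (l.map (fun t : FreeGroup (Option (Fin n)) × Option (Fin m) × ℤ => t))
      (fun t => QuotientGroup.mk' (NN rs r) t.1)
      (fun t => if t.2.1 = none then t.2.2 else 0) (by
        intro κ₀
        obtain ⟨g', rfl⟩ := QuotientGroup.mk'_surjective (NN rs r) κ₀
        refine Eq.trans ?_ (hnone g')
        rw [List.map_id']
        congr 1
        apply List.map_congr_left
        intro t _
        have h4 : QuotientGroup.mk' (NN rs r) t.1 = QuotientGroup.mk' (NN rs r) g' ↔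
            g'⁻¹ * t.1 ∈ NN rs r := by
          rw [eq_comm]
          exact QuotientGroup.eq
        simp only [h4]
        by_cases h5 : t.2.1 = none <;> by_cases h6 : g'⁻¹ * t.1 ∈ NN rs r <;> simp [h5, h6])
      (fun q => vv q (Ps rs r i₀ g r))
    rw [List.map_id'] at h3
    have h4 : (l.map (fun t : FreeGroup (Option (Fin n)) × Option (Fin m) × ℤ =>
        t.2.2 * vv (1 * (Ps rs r i₀ g t.1).right) (Ps rs r i₀ g (ext rs r t.2.1)))) =
        l.map (fun t : FreeGroup (Option (Fin n)) × Option (Fin m) × ℤ =>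
          (if t.2.1 = none then t.2.2 else 0) *
            vv (QuotientGroup.mk' (NN rs r) t.1) (Ps rs r i₀ g r) +
          (if t.2.1 = some i₀ ∧ g⁻¹ * t.1 ∈ NN rs r then t.2.2 else 0)) := by
      apply List.map_congr_left
      rintro ⟨c, o, e⟩ _
      rw [Ps_right, one_mul]
      cases o with
      | none =>
        simp [Pool.Agent.H341.FS.ext]
      | some j =>
        have h5 : ext rs r (some j) = io n (rs j) := rfl
        simp only [h5]
        rw [vv_rel i₀ g hP hemb]
        have h6 : QuotientGroup.mk' (NN rs r) c = QuotientGroup.mk' (NN rs r) g ↔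
            g⁻¹ * c ∈ NN rs r := by
          rw [eq_comm]
          exact QuotientGroup.eq
        simp only [h6]
        by_cases h7 : j = i₀ <;> by_cases h8 : g⁻¹ * c ∈ NN rs r <;> simp [h7, h8]
    have h5 := h2.1
    rw [h4, List.sum_map_add, h3, zero_add] at h5
    refine Eq.trans ?_ h5.symm
    congr 1
    apply List.map_congr_left
    intro t _
    by_cases h6 : t.2.1 = some i₀ <;> by_cases h7 : g⁻¹ * t.1 ∈ NN rs r <;> simp [h6, h7]

end main

theorem lo_ZZ : LO ZZ :=
  ⟨inferInstance, fun _ _ c h => mul_lt_mul_right h c⟩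

/-- **IVA** -/
theorem iva_of : S_FREI.{0} → S_ACOP.{0} → S_ORD.{0} → S_IVA := by
  intro hF hC hO n m rs r hLO hP hr htf
  have hLO' : LO (HH rs) := hLO
  -- `w` is not conjugate into `H`
  have hnH : ∀ (g : Coprod (HH rs) ZZ) (a : HH rs), qq rs r ≠ g * Coprod.inl a * g⁻¹ := by
    intro g a h
    obtain ⟨x, rfl⟩ := qq_surj rs g
    obtain ⟨y, rfl⟩ := QuotientGroup.mk'_surjective (RR rs) a
    apply hr x⁻¹ y
    apply qq_ker
    have h2 : qq rs (FreeGroup.map some y) = Coprod.inl (QuotientGroup.mk' (RR rs) y) :=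
      qq_map rs y
    simp only [map_mul, map_inv, h2, h]
    group
  -- torsion-freeness
  have htf' : ∀ (s : Coprod (HH rs) ZZ) (k : ℕ), 0 < k →
      s ^ k ∈ Subgroup.normalClosure ({qq rs r} : Set (Coprod (HH rs) ZZ)) →
      s ∈ Subgroup.normalClosure ({qq rs r} : Set (Coprod (HH rs) ZZ)) := by
    intro s k hk hs
    obtain ⟨x, rfl⟩ := qq_surj rs s
    rw [← map_pow, ← mem_NN] at hs
    exact (mem_NN rs r x).1 (htf x k hk hs)
  have key : (∀ a : HH rs, Coprod.inl a ∈
      Subgroup.normalClosure ({qq rs r} : Set (Coprod (HH rs) ZZ)) → a = 1) ∧ Asph (qq rs r) := by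
    by_cases hc : ∃ (g : Coprod (HH rs) ZZ) (z : ZZ), qq rs r = g * Coprod.inr z * g⁻¹
    · obtain ⟨g, z, hgz⟩ := hc
      refine case1 (qq rs r) g z hgz ?_ htf'
      rintro rfl
      apply hnH 1 1
      rw [hgz]
      simp
    · push Not at hc
      have hnp := not_power hO hLO' lo_ZZ (qq rs r) hnH hc htf'
      refine ⟨?_, hC (HH rs) ZZ hLO' lo_ZZ (qq rs r) hnH hc hnp⟩
      intro a ha
      have h1 := (hF (HH rs) ZZ hLO' lo_ZZ (qq rs r) hnH hc 1 le_rfl).1
      apply h1
      rw [map_one]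
      refine (QuotientGroup.eq_one_iff _).2 ?_
      rw [pow_one]
      exact ha
  have hemb : ∀ w : FreeGroup (Fin n), io n w ∈ NN rs r → w ∈ RR rs := by
    intro w hw
    rw [mem_NN, qq_map] at hw
    exact (QuotientGroup.eq_one_iff _).1 (key.1 _ hw)
  exact ⟨hemb, core hP hemb key.2⟩

end Pool.Agent.H597.FS

namespace Pool.Agent.H341.FS

/-- **FS-18** -/
theorem iva_of : S_FREI.{0} → S_ACOP.{0} → S_ORD.{0} → S_IVA := Pool.Agent.H597.FS.iva_of

end Pool.Agent.H341.FS
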